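import Pool.Agent.N783.PQ.Def

/-!
# A positive proportion of all odd hyperelliptic Jacobians over a number field `F`: definitions,
counting of pairs of symmetric matrices

Project PF (helper783), the version over every number field `F` of the project PQ. `g` is the genus,
`n = 2 g + 1` the degree of `f`, `d = [F : ℚ]`. `chp`, `form`, `Dist`, `Gap`, `Mid`, `Deep`, `eA`,
`eB`, `eU`, `uu` are in `N783/PQ/Def.lean` and `Mt`, `Typ`, `dd` in `N352/PJ/Def.lean`.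
The theorems `S_..` are the parts.
-/

set_option autoImplicit false
set_option linter.all false

open Polynomial Matrix NumberField
open scoped Classical

namespace Pool.Agent.N783.PF

open Pool.Agent.N352.PJ (Mt Typ dd)
open Pool.Agent.N783.PQ (chp form Dist Gap Mid Deep eA eB eU uu)

section fld

variable {F : Type} [Field F] [NumberField F]

/-! ### Sizes, polynomials -/

/-- All conjugates of `x` are at most `R` in absolute value. -/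
def Bd (x : F) (R : ℝ) : Prop := ∀ σ : F →+* ℂ, ‖σ x‖ ≤ R

/-- The discriminant of `f` (up to sign), a polynomial of degree `2 g + 1`. -/
noncomputable def dsc (g : ℕ) (f : (𝓞 F)[X]) : 𝓞 F :=
  f.resultant (derivative f) (2 * g + 1) (2 * g)

/-- Congruence of polynomials modulo an ideal. -/
def Cg (𝔞 : Ideal (𝓞 F)) (f f' : (𝓞 F)[X]) : Prop := ∀ j, f.coeff j - f'.coeff j ∈ 𝔞

/-- The ideal generated by a natural number. -/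
noncomputable abbrev sp (F : Type) [Field F] [NumberField F] (q : ℕ) : Ideal (𝓞 F) :=
  Ideal.span {(q : 𝓞 F)}

/-- Reduction modulo an ideal. -/
noncomputable abbrev rd (𝔭 : Ideal (𝓞 F)) (f : (𝓞 F)[X]) : (𝓞 F ⧸ 𝔭)[X] :=
  f.map (Ideal.Quotient.mk 𝔭)

/-- The polynomial over `F`. -/
noncomputable abbrev fF (f : (𝓞 F)[X]) : F[X] := f.map (algebraMap (𝓞 F) F)

/-- All monic polynomials of degree `2 g + 1` without term of degree `2 g` and of height at most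
`B`. -/
structure Ht (g B : ℕ) (f : (𝓞 F)[X]) : Prop where
  mon : f.Monic
  deg : f.natDegree = 2 * g + 1
  tr : f.coeff (2 * g) = 0
  ht : ∀ j ≤ 2 * g, Bd (f.coeff j : F) ((B : ℝ) ^ (2 * g + 1 - j))

/-- The set `S` of rational primes, the primes `𝔮 q` of `F` over `q`, the polynomials `h q` of degree
`2 g`, irreducible modulo `𝔮 q`, and the residues `A q` modulo `q`: `X * h q` modulo `𝔮 q` and
irreducible modulo the other primes over `q`. -/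
def GoodS (g W : ℕ) (S : Finset ℕ) (𝔮 : ℕ → Ideal (𝓞 F)) (h A : ℕ → (𝓞 F)[X]) : Prop :=
  ∀ q ∈ S, q.Prime ∧ W < q ∧ 2 * g + 1 < q ∧ q % 8 = 1 ∧
    (∀ 𝔭 : Ideal (𝓞 F), 𝔭.IsPrime → (q : 𝓞 F) ∉ 𝔭 ^ 2) ∧
    (𝔮 q).IsPrime ∧ (q : 𝓞 F) ∈ 𝔮 q ∧
    (h q).Monic ∧ (h q).natDegree = 2 * g ∧ Irreducible (rd (𝔮 q) (h q)) ∧
    (A q).Monic ∧ (A q).natDegree = 2 * g + 1 ∧ (A q).coeff (2 * g) = 0 ∧
    Cg (𝔮 q) (A q) (X * h q) ∧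
    ∀ 𝔭 : Ideal (𝓞 F), 𝔭.IsPrime → (q : 𝓞 F) ∈ 𝔭 → 𝔭 ≠ 𝔮 q → Irreducible (rd 𝔭 (A q))

/-- The conditions at the small primes. -/
structure GoodF (g W : ℕ) (f₁ : (𝓞 F)[X]) : Prop where
  mon : f₁.Monic
  deg : f₁.natDegree = 2 * g + 1
  tr : f₁.coeff (2 * g) = 0
  pos : 0 < W
  two : 2 ∣ W
  irr : ∀ 𝔭 : Ideal (𝓞 F), 𝔭.IsPrime → (2 : 𝓞 F) ∈ 𝔭 → Irreducible (rd 𝔭 f₁)
  sep : ∀ 𝔭 : Ideal (𝓞 F), 𝔭.IsPrime → (W : 𝓞 F) ∈ 𝔭 → (rd 𝔭 f₁).Separable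

/-- `f` is weakly divisible by `𝔭 ^ 2`. -/
def Weak (𝔭 : Ideal (𝓞 F)) (f : (𝓞 F)[X]) : Prop :=
  ∃ c : 𝓞 F, f.eval c ∈ 𝔭 ^ 2 ∧ (derivative f).eval c ∈ 𝔭

/-- The family. -/
structure Fam (g B W : ℕ) (f₁ : (𝓞 F)[X]) (S : Finset ℕ) (A : ℕ → (𝓞 F)[X]) (f : (𝓞 F)[X]) :
    Prop where
  ht : Ht g B f
  one : Cg (sp F W) f f₁
  con : ∀ q ∈ S, Cg (sp F q) f (A q)
  wk : ∀ 𝔭 : Ideal (𝓞 F), 𝔭.IsPrime → 𝔭 ≠ ⊥ → dsc g f ∈ 𝔭 ^ 2 →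
    B ^ Module.finrank ℚ F ≤ Ideal.absNorm 𝔭 ^ 2 ∧ Weak 𝔭 f

/-! ### Pairs of symmetric matrices -/

/-- Reduction of a matrix. -/
noncomputable abbrev rm {g : ℕ} (𝔭 : Ideal (𝓞 F)) (A : Mt g (𝓞 F)) : Mt g (𝓞 F ⧸ 𝔭) :=
  A.map (Ideal.Quotient.mk 𝔭)

/-- The matrix over `F`. -/
noncomputable abbrev mF {g : ℕ} (A : Mt g (𝓞 F)) : Mt g F := A.map (algebraMap (𝓞 F) F)

/-- Pairs of symmetric matrices in a box. -/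
structure Box (g N c : ℕ) (w : Fin (2 * g + 1) → ℤ) (A B : Mt g (𝓞 F)) : Prop where
  sA : A.IsSymm
  sB : B.IsSymm
  det : ∃ x : 𝓞 F, x ≠ 0 ∧ A.det = (-1) ^ g * x ^ 2 ∧ Ideal.absNorm (Ideal.span {x}) ≤ 2 ^ c
  tr : (A.adjugate * B).trace = 0
  bA : ∀ i j, Bd (A i j : F) ((2 : ℝ) ^ ((c : ℤ) + w i + w j))
  bB : ∀ i j, Bd (B i j : F) ((2 : ℝ) ^ (2 * (N : ℤ) + w i + w j))

/-- The pairs over which we count. -/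
structure Xset (g N c : ℕ) (w : Fin (2 * g + 1) → ℤ) (S : Finset ℕ) (𝔮 : ℕ → Ideal (𝓞 F))
    (P : ℕ → (𝓞 F)[X]) (A B : Mt g (𝓞 F)) : Prop where
  box : Box g N c w A B
  con : ∀ q ∈ S, ∀ 𝔭 : Ideal (𝓞 F), 𝔭.IsPrime → (q : 𝓞 F) ∈ 𝔭 → chp (rm 𝔭 A) (rm 𝔭 B) = rd 𝔭 (P q)
  dist : ∀ q ∈ S, Dist (rm (𝔮 q) A) (rm (𝔮 q) B)

/-- The polynomial `f` is bad: it is irreducible and comes from a pair. -/
def LBad (g N c : ℕ) (S : Finset ℕ) (𝔮 : ℕ → Ideal (𝓞 F)) (P : ℕ → (𝓞 F)[X])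
    (f : (𝓞 F)[X]) : Prop :=
  Irreducible (fF f) ∧ ∃ w, Typ g w ∧ Gap g N w ∧ (Mid g N w ∨ Deep g N c w) ∧
    ∃ A B : Mt g (𝓞 F), Xset g N c w S 𝔮 P A B ∧ chp (mF A) (mF B) = fF f

end fld

/-! ### Counting -/

/-- Points of `𝓞 F` in boxes: at most one if `R < 1`, and of the expected number in the classes
modulo an ideal. -/
def S_PTS : Prop := ∀ (F : Type) [Field F] [NumberField F],
  (∀ a : 𝓞 F, ∀ R < (1 : ℝ), Bd (a : F) R → a = 0) ∧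
  ∃ C : ℝ, 0 < C ∧
    (∀ R : ℝ, 1 ≤ R → {a : 𝓞 F | Bd (a : F) R}.Finite ∧
      R ^ Module.finrank ℚ F ≤ C * ({a : 𝓞 F | Bd (a : F) R}.ncard : ℝ)) ∧
    ∀ (𝔞 : Ideal (𝓞 F)) (b : 𝓞 F) (R : ℝ), 𝔞 ≠ ⊥ → 0 ≤ R →
      {a : 𝓞 F | a - b ∈ 𝔞 ∧ Bd (a : F) R}.Finite ∧
      (({a : 𝓞 F | a - b ∈ 𝔞 ∧ Bd (a : F) R}.ncard : ℝ)) ≤
        C * (R ^ Module.finrank ℚ F / (Ideal.absNorm 𝔞 : ℝ) + 1)

/-- Over a finite field: symmetric matrices `B` which are distinguished with respect to `A`, with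
given characteristic polynomial `x h(x)`. -/
def S_CQA : Prop := ∀ (g : ℕ) (κ : Type) [Field κ] [Finite κ], 1 ≤ g → (2 : κ) ≠ 0 →
  ∀ h : κ[X], h.Monic → Irreducible h → h.natDegree = 2 * g → ∀ A : Mt g κ, A.IsSymm →
  (∃ x : κ, x ≠ 0 ∧ A.det = (-1) ^ g * x ^ 2) →
  2 * Nat.card {B : Mt g κ // B.IsSymm ∧ chp A B = X * h ∧ Dist A B} ≤
    Nat.card κ ^ (g * (2 * g + 1))

/-- Over a finite field: symmetric matrices `B` with given irreducible characteristic polynomial. -/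
def S_CQB : Prop := ∀ (g : ℕ) (κ : Type) [Field κ] [Finite κ], 1 ≤ g → (2 : κ) ≠ 0 →
  ∀ f : κ[X], f.Monic → Irreducible f → f.natDegree = 2 * g + 1 → ∀ A : Mt g κ, A.IsSymm →
  (∃ x : κ, x ≠ 0 ∧ A.det = (-1) ^ g * x ^ 2) →
  Nat.card {B : Mt g κ // B.IsSymm ∧ chp A B = f} ≤ Nat.card κ ^ (g * (2 * g + 1))

/-- The number of pairs in a large box. -/
def S_PB : Prop := ∀ (F : Type) [Field F] [NumberField F] (g c : ℕ), 1 ≤ g → ∃ C K : ℕ,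
  ∀ (W : ℕ) (S : Finset ℕ) (𝔮 : ℕ → Ideal (𝓞 F)) (h P : ℕ → (𝓞 F)[X]), K ≤ W →
  GoodS g W S 𝔮 h P → ∀ (N : ℕ) (w : Fin (2 * g + 1) → ℤ), Typ g w →
  ((∏ q ∈ S, q : ℕ) : ℝ) ≤ (2 : ℝ) ^ (2 * (N : ℤ) + 2 * w 0) →
  2 ^ S.card * (∏ q ∈ S, q ^ (2 * g)) ^ Module.finrank ℚ F *
      {p : Mt g (𝓞 F) × Mt g (𝓞 F) | Xset g N c w S 𝔮 P p.1 p.2}.ncard ≤
    C * 2 ^ (Module.finrank ℚ F * (eA g w + 2 * N * dd g))

/-- The trivial bound for the number of pairs. -/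
def S_PB0 : Prop := ∀ (F : Type) [Field F] [NumberField F] (g c : ℕ), 1 ≤ g → ∃ C : ℕ,
  ∀ (S : Finset ℕ) (𝔮 : ℕ → Ideal (𝓞 F)) (P : ℕ → (𝓞 F)[X]) (N : ℕ)
  (w : Fin (2 * g + 1) → ℤ), Typ g w →
  {p : Mt g (𝓞 F) × Mt g (𝓞 F) | Xset g N c w S 𝔮 P p.1 p.2}.Finite ∧
  2 ^ (Module.finrank ℚ F * (2 * N)) *
      {p : Mt g (𝓞 F) × Mt g (𝓞 F) | Xset g N c w S 𝔮 P p.1 p.2}.ncard ≤
    C * 2 ^ (Module.finrank ℚ F * (eA g w + eB g N w))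

/-- Every irreducible `f` comes from many pairs (unipotent matrices). -/
def S_ORB : Prop := ∀ (F : Type) [Field F] [NumberField F] (g : ℕ), ∃ κ C : ℕ, ∀ (c : ℕ)
  (S : Finset ℕ) (𝔮 : ℕ → Ideal (𝓞 F)) (P : ℕ → (𝓞 F)[X]) (N : ℕ)
  (w : Fin (2 * g + 1) → ℤ), Typ g w →
  {p : Mt g (𝓞 F) × Mt g (𝓞 F) | Xset g (N + κ) (c + κ) w S 𝔮 P p.1 p.2}.Finite →
  {f : (𝓞 F)[X] | Irreducible (fF f) ∧ ∃ A B : Mt g (𝓞 F), Xset g N c w S 𝔮 P A B ∧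
      chp (mF A) (mF B) = fF f}.ncard * 2 ^ (Module.finrank ℚ F * eU g w) ≤
  C * {p : Mt g (𝓞 F) × Mt g (𝓞 F) | Xset g (N + κ) (c + κ) w S 𝔮 P p.1 p.2}.ncard

/-- Few bad `f`. -/
def S_BAD : Prop := ∀ (F : Type) [Field F] [NumberField F] (g c : ℕ), 1 ≤ g → ∃ C K : ℕ,
  ∀ (W : ℕ) (S : Finset ℕ) (𝔮 : ℕ → Ideal (𝓞 F)) (h P : ℕ → (𝓞 F)[X]), K ≤ W →
  GoodS g W S 𝔮 h P → ∃ N₀ : ℕ, ∀ N ≥ N₀, {f : (𝓞 F)[X] | LBad g N c S 𝔮 P f}.Finite ∧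
  2 ^ S.card * (∏ q ∈ S, q ^ (2 * g)) ^ Module.finrank ℚ F *
      {f : (𝓞 F)[X] | LBad g N c S 𝔮 P f}.ncard ≤
    C * 2 ^ (Module.finrank ℚ F * (2 * N * dd g))

/-! ### The family -/

/-- Many `f` in the family; `W` is a multiple of a given number. -/
def S_FAM : Prop := ∀ (F : Type) [Field F] [NumberField F] (g : ℕ), 1 ≤ g →
  ∀ K : ℕ, ∃ (W : ℕ) (f₁ : (𝓞 F)[X]), K ≤ W ∧ GoodF g W f₁ ∧
  ∃ c : ℝ, 0 < c ∧ ∀ (S : Finset ℕ) (𝔮 : ℕ → Ideal (𝓞 F)) (h P : ℕ → (𝓞 F)[X]),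
    GoodS g W S 𝔮 h P → ∃ B₀ : ℕ, ∀ B ≥ B₀,
    c * (B : ℝ) ^ (Module.finrank ℚ F * dd g) ≤
      (((∏ q ∈ S, q ^ (2 * g)) ^ Module.finrank ℚ F : ℕ) : ℝ) *
      ({f : (𝓞 F)[X] | Fam g B W f₁ S P f}.ncard : ℝ)

/-- Existence of `S`. -/
def S_EXS : Prop := ∀ (F : Type) [Field F] [NumberField F] (g W : ℕ), 1 ≤ g → ∀ m : ℕ,
  ∃ (S : Finset ℕ) (𝔮 : ℕ → Ideal (𝓞 F)) (h P : ℕ → (𝓞 F)[X]),
    GoodS g W S 𝔮 h P ∧ S.card = m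

end Pool.Agent.N783.PF
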