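import Pool.Agent.N783.PF.Def
import Pool.Agent.N783.PQ.Lat

/-!
# Statements on the field `L = F(θ)`, `f(θ) = 0`: lattices, reduction, distinguished lattices

Project PF (helper783). A lattice is a submodule over `𝓞 F` which need not be free; we use vectors
`e` in it which are linearly independent over `F` instead of a basis.
-/

set_option autoImplicit false
set_option linter.all false

open Polynomial IsDedekindDomain Matrix NumberField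
open scoped Classical

namespace Pool.Agent.N783.PF

open Pool.Agent.N352.PJ (Mt Typ dd)
open Pool.Agent.N783.PQ (chp form Dist Gap Mid Deep eA eB eU uu)
open Pool.Agent.N874.PP (Ev Sq1 U0)

/-! ### The field -/

section gen

variable {F L : Type} [Field F] [NumberField F] [Field L] [NumberField L] [Algebra F L]

/-- `L = F(θ)` is of degree `2 g + 1` over `F` and `f(θ) = 0`. -/
structure IsGen (g : ℕ) (f : (𝓞 F)[X]) (θ : L) : Prop where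
  mon : f.Monic
  deg : f.natDegree = 2 * g + 1
  root : aeval θ (fF f) = 0
  rank : Module.finrank F L = 2 * g + 1
  gen : ∀ x : L, ∃ c : Fin (2 * g + 1) → F, x = ∑ i, algebraMap F L (c i) * θ ^ (i : ℕ)

variable {g : ℕ} {f : (𝓞 F)[X]} {θ : L}

theorem IsGen.span (h : IsGen g f θ) :
    ⊤ ≤ Submodule.span F (Set.range fun i : Fin (2 * g + 1) => θ ^ (i : ℕ)) := by
  intro x _
  obtain ⟨c, rfl⟩ := h.gen x
  refine Submodule.sum_mem _ fun i _ => ?_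
  rw [← Algebra.smul_def]
  exact Submodule.smul_mem _ _ (Submodule.subset_span ⟨i, rfl⟩)

/-- The basis `1`, `θ`, ..., `θ ^ (2 g)`. -/
noncomputable def IsGen.basis (h : IsGen g f θ) : Module.Basis (Fin (2 * g + 1)) F L :=
  basisOfTopLeSpanOfCardEqFinrank (fun i : Fin (2 * g + 1) => θ ^ (i : ℕ)) h.span
    (by rw [h.rank, Fintype.card_fin])

theorem IsGen.basis_apply (h : IsGen g f θ) (i : Fin (2 * g + 1)) :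
    h.basis i = θ ^ (i : ℕ) := by
  rw [IsGen.basis, coe_basisOfTopLeSpanOfCardEqFinrank]

/-- The coefficient of `θ ^ (2 g)`. -/
noncomputable def IsGen.top (h : IsGen g f θ) : L →ₗ[F] F := h.basis.coord (Fin.last (2 * g))

/-- `Λ` is a lattice which is unimodular for the form `x y / α` (coefficient of `θ ^ (2 g)`) and
stable under `θ`. -/
structure Lat (h : IsGen g f θ) (α : L) (Λ : Submodule (𝓞 F) L) : Prop where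
  fg : Λ.FG
  span : ∀ x : L, ∃ m : 𝓞 F, m ≠ 0 ∧ m • x ∈ Λ
  stab : ∀ x ∈ Λ, θ * x ∈ Λ
  int : ∀ x ∈ Λ, ∀ y ∈ Λ, IsIntegral ℤ (h.top (x * y / α))
  dual : ∀ y : L, (∀ x ∈ Λ, IsIntegral ℤ (h.top (x * y / α))) → y ∈ Λ

/-- A distinguished vector modulo `𝔮`. -/
def DVec (h : IsGen g f θ) (α : L) (Λ : Submodule (𝓞 F) L) (𝔮 : Ideal (𝓞 F)) : Prop :=
  ∃ x ∈ Λ, ∃ s : 𝓞 F, s ∉ 𝔮 ∧ ∀ m ≤ 2 * g, ∃ a ∈ 𝔮,
    (a : F) = h.top (θ ^ m * x ^ 2 / α) - if m = 2 * g then (s : F) ^ 2 else 0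

/-- `A` and `B` are the Gram matrices of the vectors `e` for the forms `x y / α` and `θ x y / α`. -/
structure Gr (h : IsGen g f θ) (α : L) (e : Fin (2 * g + 1) → L) (A B : Mt g (𝓞 F)) : Prop where
  gA : ∀ i j, ((A i j : 𝓞 F) : F) = h.top (e i * e j / α)
  gB : ∀ i j, ((B i j : 𝓞 F) : F) = h.top (θ * (e i * e j) / α)

/-- The value of the majorant: the sum of `|τ x| ^ 2 / |τ (α f'(θ))|` over the embeddings `τ`. -/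
noncomputable def HH (f : (𝓞 F)[X]) (θ α x : L) : ℝ :=
  ∑ τ : L →+* ℂ, ‖τ x‖ ^ 2 / ‖τ (α * aeval θ (derivative (fF f)))‖

/-- `Λ` is the ideal `I` with `I ^ 2 = α O`. -/
def SDn (α : L) (Λ : Submodule (𝓞 F) L) : Prop := ∀ x : L, x ∈ Λ ↔ IsIntegral ℤ (x ^ 2 / α)

/-- The prime `𝔓` of `L` lies over `𝔭`. -/
def Ov (𝔭 : Ideal (𝓞 F)) (𝔓 : HeightOneSpectrum (𝓞 L)) : Prop :=
  ∀ a ∈ 𝔭, algebraMap (𝓞 F) (𝓞 L) a ∈ 𝔓.asIdeal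

end gen

/-- The discriminant is not divisible by the square of a prime. -/
def SqF {F : Type} [Field F] [NumberField F] (g : ℕ) (f : (𝓞 F)[X]) : Prop :=
  ∀ 𝔭 : Ideal (𝓞 F), 𝔭.IsPrime → 𝔭 ≠ ⊥ → dsc g f ∉ 𝔭 ^ 2

/-! ### Reduction theory -/

/-- The majorant. -/
def S_MAJ : Prop := ∀ (g B : ℕ) (F L : Type) [Field F] [NumberField F] [Field L] [NumberField L]
  [Algebra F L] (f : (𝓞 F)[X]) (θ : L), 1 ≤ g → ∀ hG : IsGen g f θ, Ht g B f →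
  (∀ α : L, α ≠ 0 → ∀ (σ : F →+* ℂ) (m : ℕ) (x y : L),
    ‖σ (hG.top (θ ^ m * (x * y) / α))‖ ^ 2 ≤ (2 * B : ℝ) ^ (2 * m) * (HH f θ α x * HH f θ α y)) ∧
  ∀ (σ : F →+* ℂ) (j : F), ‖σ j‖ ^ 2 ≤ (4 * B : ℝ) ^ (2 * g) * HH f θ 1 (algebraMap F L j)

/-- A basis over the integers of a lattice and its discriminant. -/
def S_DIS : Prop := ∀ (g : ℕ) (F : Type) [Field F] [NumberField F], ∃ C : ℕ,
  ∀ (L : Type) [Field L] [NumberField L] [Algebra F L] (f : (𝓞 F)[X]) (θ : L) (hG : IsGen g f θ)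
  (α : L) (Λ : Submodule (𝓞 F) L), α ≠ 0 → Lat hG α Λ →
  ∃ b : Fin ((2 * g + 1) * Module.finrank ℚ F) → L, LinearIndependent ℚ b ∧
    (∀ x : L, x ∈ Λ ↔ ∃ c : Fin ((2 * g + 1) * Module.finrank ℚ F) → ℤ, x = ∑ i, (c i : L) * b i) ∧
    |(Matrix.of fun i j => Algebra.trace ℚ L
      (b i * b j / (α * aeval θ (derivative (fF f))))).det| ≤ C

/-- Linearly independent small vectors in a lattice. -/
def S_RED : Prop := ∀ (g : ℕ) (F : Type) [Field F] [NumberField F], ∃ C : ℕ,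
  ∀ (L : Type) [Field L] [NumberField L] [Algebra F L] (f : (𝓞 F)[X]) (θ : L) (hG : IsGen g f θ)
  (α : L) (Λ : Submodule (𝓞 F) L), α ≠ 0 → Lat hG α Λ →
  ∃ e : Fin (2 * g + 1) → L, (∀ i, e i ∈ Λ) ∧ LinearIndependent F e ∧
    Monotone (fun i => HH f θ α (e i)) ∧ ∏ i, HH f θ α (e i) ≤ C

/-- The type of a lattice. -/
def S_TYP : Prop := ∀ (g : ℕ) (F : Type) [Field F] [NumberField F], ∃ C : ℕ, 1 ≤ g →
  ∀ (B : ℕ) (L : Type) [Field L] [NumberField L] [Algebra F L] (f : (𝓞 F)[X]) (θ : L)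
  (hG : IsGen g f θ) (α : L) (Λ : Submodule (𝓞 F) L), Ht g B f → α ≠ 0 → Lat hG α Λ →
  ∃ (e : Fin (2 * g + 1) → L) (w : Fin (2 * g + 1) → ℤ), (∀ i, e i ∈ Λ) ∧
    LinearIndependent F e ∧ Typ g w ∧ ∀ i, HH f θ α (e i) ≤ (4 : ℝ) ^ ((C : ℤ) + w i)

/-- Formal properties of the Gram matrices. -/
def S_CHI : Prop := ∀ (g : ℕ) (F L : Type) [Field F] [NumberField F] [Field L] [NumberField L]
  [Algebra F L] (f : (𝓞 F)[X]) (θ : L) (hG : IsGen g f θ) (α : L) (Λ : Submodule (𝓞 F) L)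
  (e : Fin (2 * g + 1) → L), f.coeff (2 * g) = 0 → α ≠ 0 → Lat hG α Λ → (∀ i, e i ∈ Λ) →
  LinearIndependent F e → ∃ A B : Mt g (𝓞 F), Gr hG α e A B ∧ A.IsSymm ∧ B.IsSymm ∧ A.det ≠ 0 ∧
    chp (mF A) (mF B) = fF f ∧ (A.adjugate * B).trace = 0 ∧
    (IsSquare (Algebra.norm F α) → ∃ x : 𝓞 F, x ≠ 0 ∧ A.det = (-1) ^ g * x ^ 2) ∧
    ∀ 𝔮 : Ideal (𝓞 F), 𝔮.IsPrime → 𝔮 ≠ ⊥ → A.det ∉ 𝔮 → chp (rm 𝔮 A) (rm 𝔮 B) = rd 𝔮 f ∧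
      (DVec hG α Λ 𝔮 → Dist (rm 𝔮 A) (rm 𝔮 B))

/-- A common isotropic subspace of dimension `g` gives a square. -/
def S_SQ : Prop := ∀ (g : ℕ) (F L : Type) [Field F] [NumberField F] [Field L] [NumberField L]
  [Algebra F L] (f : (𝓞 F)[X]) (θ : L), 1 ≤ g →
  ∀ hG : IsGen g f θ, ∀ (α : L) (e : Fin (2 * g + 1) → L), α ≠ 0 → LinearIndependent F e →
  (∀ i j : Fin (2 * g + 1), (i : ℕ) < g → (j : ℕ) < g → hG.top (e i * e j / α) = 0) →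
  (∀ i j : Fin (2 * g + 1), (i : ℕ) < g → (j : ℕ) < g → hG.top (θ * (e i * e j) / α) = 0) →
  IsSquare (Algebra.norm F α) → IsSquare α

/-- From the lattice to a bad polynomial: `α` is not a square, or `α = 1` and the elements of `F` in
the lattice are large. -/
def S_LB : Prop := ∀ (g : ℕ) (F : Type) [Field F] [NumberField F], 1 ≤ g → ∃ κ : ℕ,
  ∀ (L : Type) [Field L] [NumberField L] [Algebra F L] (f : (𝓞 F)[X]) (θ : L) (B N W : ℕ)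
  (S : Finset ℕ) (𝔮 : ℕ → Ideal (𝓞 F)) (h P : ℕ → (𝓞 F)[X]), κ ≤ W → GoodS g W S 𝔮 h P →
  ∀ hG : IsGen g f θ, Ht g B f → 2 ^ κ * B ≤ 4 ^ N → (∀ q ∈ S, Cg (sp F q) f (P q)) →
  ∀ (α : L) (Λ : Submodule (𝓞 F) L), α ≠ 0 → IsSquare (Algebra.norm F α) → Lat hG α Λ →
  (∀ q ∈ S, DVec hG α Λ (𝔮 q)) →
  (¬ IsSquare α ∨ (α = 1 ∧ ∀ j : 𝓞 F, algebraMap F L (j : F) ∈ Λ →
    j = 0 ∨ B ^ Module.finrank ℚ F ≤ Ideal.absNorm (Ideal.span {j}) ^ 2)) →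
  LBad g N κ S 𝔮 P f

/-! ### The distinguished lattice at a weakly divisible prime -/

/-- The neighbour of `𝓞 F [θ]`. -/
def S_NBR : Prop := ∀ (g : ℕ) (F L : Type) [Field F] [NumberField F] [Field L] [NumberField L]
  [Algebra F L] (f : (𝓞 F)[X]) (θ : L) (𝔭 : Ideal (𝓞 F)), 1 ≤ g → 𝔭.IsPrime → 𝔭 ≠ ⊥ →
  (2 : 𝓞 F) ∉ 𝔭 → ∀ hG : IsGen g f θ, Weak 𝔭 f → ∃ Λ : Submodule (𝓞 F) L, Lat hG 1 Λ ∧
  (∀ a ∈ 𝔭, algebraMap F L (a : F) ∈ Λ) ∧ ∀ j : 𝓞 F, algebraMap F L (j : F) ∈ Λ → j ∈ 𝔭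

/-- Discriminant and separability modulo `𝔭`. -/
def S_DSC : Prop := ∀ (F : Type) [Field F] [NumberField F] (g : ℕ) (𝔭 : Ideal (𝓞 F))
  (f f' : (𝓞 F)[X]), 1 ≤ g → 𝔭.IsPrime → 𝔭 ≠ ⊥ → f.Monic → f.natDegree = 2 * g + 1 →
  Cg 𝔭 f f' → (rd 𝔭 f').Separable → dsc g f ∉ 𝔭

/-- A polynomial of the family which is not bad has a discriminant without square factors. -/
def S_SQF : Prop := ∀ (g : ℕ) (F : Type) [Field F] [NumberField F], 1 ≤ g → ∃ κ : ℕ,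
  ∀ (B N W : ℕ) (f₁ : (𝓞 F)[X]) (S : Finset ℕ) (𝔮 : ℕ → Ideal (𝓞 F)) (h P : ℕ → (𝓞 F)[X])
  (f : (𝓞 F)[X]), κ ≤ W → GoodF g W f₁ → GoodS g W S 𝔮 h P → Fam g B W f₁ S P f →
  Irreducible (fF f) → 2 ^ κ * B ≤ 4 ^ N → 1 ≤ B → ¬ LBad g N κ S 𝔮 P f → SqF g f

/-! ### Ideals -/

/-- The ring of integers is `𝓞 F [θ]`. -/
def S_INT : Prop := ∀ (g : ℕ) (F L : Type) [Field F] [NumberField F] [Field L] [NumberField L]
  [Algebra F L] (f : (𝓞 F)[X]) (θ : L), IsGen g f θ → SqF g f →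
  ∀ x : L, IsIntegral ℤ x ↔ ∃ v : Fin (2 * g + 1) → 𝓞 F,
    x = ∑ i, algebraMap F L (v i : F) * θ ^ (i : ℕ)

/-- The ideal `I` with `I ^ 2 = α O`. -/
def S_SD : Prop := ∀ (g : ℕ) (F L : Type) [Field F] [NumberField F] [Field L] [NumberField L]
  [Algebra F L] (f : (𝓞 F)[X]) (θ : L), ∀ hG : IsGen g f θ, SqF g f → ∀ α : L, α ≠ 0 →
  (∀ 𝔓 : HeightOneSpectrum (𝓞 L), Ev 𝔓 α) → ∃ Λ : Submodule (𝓞 F) L, SDn α Λ ∧ Lat hG α Λ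

/-- Local squares give a distinguished vector modulo `𝔮`. -/
def S_TV : Prop := ∀ (g : ℕ) (F L : Type) [Field F] [NumberField F] [Field L] [NumberField L]
  [Algebra F L] (f : (𝓞 F)[X]) (θ : L), ∀ hG : IsGen g f θ, SqF g f → ∀ (α : L)
  (Λ : Submodule (𝓞 F) L), α ≠ 0 → SDn α Λ → Lat hG α Λ →
  ∀ 𝔮 : Ideal (𝓞 F), 𝔮.IsPrime → 𝔮 ≠ ⊥ → (rd 𝔮 f).Separable →
  (∀ 𝔓 : HeightOneSpectrum (𝓞 L), Ov 𝔮 𝔓 → Sq1 𝔓 α) → DVec hG α Λ 𝔮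

/-- The two primes over `𝔮 q`. -/
def S_EXQ : Prop := ∀ (g W : ℕ) (F L : Type) [Field F] [NumberField F] [Field L] [NumberField L]
  [Algebra F L] (f : (𝓞 F)[X]) (θ : L) (S : Finset ℕ) (𝔮 : ℕ → Ideal (𝓞 F))
  (h P : ℕ → (𝓞 F)[X]), 1 ≤ g → IsGen g f θ → SqF g f → GoodS g W S 𝔮 h P →
  ∀ q ∈ S, Cg (𝔮 q) f (X * h q) → ∃ 𝔓₁ 𝔓₂ : HeightOneSpectrum (𝓞 L), Ov (𝔮 q) 𝔓₁ ∧
    Ov (𝔮 q) 𝔓₂ ∧ 𝔓₁.valuation L θ < 1 ∧ 𝔓₂.valuation L θ = 1 ∧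
    𝔓₁.valuation L (q : L) = WithZero.exp (-1 : ℤ) ∧
    𝔓₂.valuation L (q : L) = WithZero.exp (-1 : ℤ) ∧
    ∀ 𝔓 : HeightOneSpectrum (𝓞 L), Ov (𝔮 q) 𝔓 → 𝔓 = 𝔓₁ ∨ 𝔓 = 𝔓₂

/-- Elements of `F` are squares at the big prime over `𝔮 q` (its degree is even); the residue field;
`θ f'(θ)` is not a square. -/
def S_CSQ : Prop := ∀ (g W : ℕ) (F L : Type) [Field F] [NumberField F] [Field L] [NumberField L]
  [Algebra F L] (f : (𝓞 F)[X]) (θ : L) (S : Finset ℕ) (𝔮 : ℕ → Ideal (𝓞 F))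
  (h P : ℕ → (𝓞 F)[X]), 1 ≤ g → IsGen g f θ → SqF g f → GoodS g W S 𝔮 h P →
  ∀ q ∈ S, Cg (𝔮 q) f (X * h q) →
  ∀ 𝔓 : HeightOneSpectrum (𝓞 L), Ov (𝔮 q) 𝔓 → 𝔓.valuation L θ = 1 →
    (∀ c : 𝓞 F, c ∉ 𝔮 q → Sq1 𝔓 (algebraMap F L (c : F))) ∧
    (∃ m : ℕ, Nat.card (𝓞 L ⧸ 𝔓.asIdeal) = q ^ (2 * m)) ∧
    𝔓.valuation L (aeval θ (derivative (fF f))) = 1 ∧
    ¬ Sq1 𝔓 (θ * aeval θ (derivative (fF f)))

/-- The primes which divide `f'(θ)`. -/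
def S_RAM : Prop := ∀ (g : ℕ) (F L : Type) [Field F] [NumberField F] [Field L] [NumberField L]
  [Algebra F L] (f : (𝓞 F)[X]) (θ : L), IsGen g f θ → SqF g f →
  ∀ 𝔭 : Ideal (𝓞 F), 𝔭.IsPrime → 𝔭 ≠ ⊥ → ∀ 𝔓₀ : HeightOneSpectrum (𝓞 L), Ov 𝔭 𝔓₀ →
    𝔓₀.valuation L (aeval θ (derivative (fF f))) < 1 →
    (∃ c : 𝓞 F, 𝔓₀.valuation L (θ - algebraMap F L (c : F)) < 1) ∧
    ∀ 𝔓 : HeightOneSpectrum (𝓞 L), Ov 𝔭 𝔓 → 𝔓 ≠ 𝔓₀ →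
      𝔓.valuation L (aeval θ (derivative (fF f))) = 1

/-- The parity at a prime of degree one from the norm. -/
def S_PAR : Prop := ∀ (g : ℕ) (F L : Type) [Field F] [NumberField F] [Field L] [NumberField L]
  [Algebra F L] (f : (𝓞 F)[X]) (θ : L), IsGen g f θ → SqF g f →
  ∀ 𝔭 : Ideal (𝓞 F), 𝔭.IsPrime → 𝔭 ≠ ⊥ → ∀ (𝔓₀ : HeightOneSpectrum (𝓞 L)) (c : 𝓞 F), Ov 𝔭 𝔓₀ →
    𝔓₀.valuation L (θ - algebraMap F L (c : F)) < 1 → ∀ x : L, x ≠ 0 →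
    IsSquare (Algebra.norm F x) →
    (∀ 𝔓 : HeightOneSpectrum (𝓞 L), Ov 𝔭 𝔓 → 𝔓 ≠ 𝔓₀ → Ev 𝔓 x) → Ev 𝔓₀ x

/-- The parity at the prime of degree one over `𝔮 q` from the norm. -/
def S_PARQ : Prop := ∀ (g W : ℕ) (F L : Type) [Field F] [NumberField F] [Field L] [NumberField L]
  [Algebra F L] (f : (𝓞 F)[X]) (θ : L) (S : Finset ℕ) (𝔮 : ℕ → Ideal (𝓞 F))
  (h P : ℕ → (𝓞 F)[X]), 1 ≤ g → IsGen g f θ → SqF g f → GoodS g W S 𝔮 h P →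
  ∀ q ∈ S, Cg (𝔮 q) f (X * h q) → ∀ x : L, x ≠ 0 → IsSquare (Algebra.norm F x) →
    ∀ 𝔓 : HeightOneSpectrum (𝓞 L), Ov (𝔮 q) 𝔓 → 𝔓.valuation L θ < 1 → Ev 𝔓 x

/-- The square class at the prime of degree one over `𝔮 q` from the norm. -/
def S_NS : Prop := ∀ (g W : ℕ) (F L : Type) [Field F] [NumberField F] [Field L] [NumberField L]
  [Algebra F L] (f : (𝓞 F)[X]) (θ : L) (S : Finset ℕ) (𝔮 : ℕ → Ideal (𝓞 F))
  (h P : ℕ → (𝓞 F)[X]), 1 ≤ g → IsGen g f θ → SqF g f → GoodS g W S 𝔮 h P →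
  ∀ q ∈ S, Cg (𝔮 q) f (X * h q) → ∀ x : L, x ≠ 0 → IsSquare (Algebra.norm F x) →
    (∀ 𝔓 : HeightOneSpectrum (𝓞 L), Ov (𝔮 q) 𝔓 → 𝔓.valuation L θ < 1 → Ev 𝔓 x) →
    (∀ 𝔓 : HeightOneSpectrum (𝓞 L), Ov (𝔮 q) 𝔓 → 𝔓.valuation L θ = 1 → Sq1 𝔓 x) →
    ∀ 𝔓 : HeightOneSpectrum (𝓞 L), Ov (𝔮 q) 𝔓 → Sq1 𝔓 x

/-- The parity at a prime modulo which `f` is irreducible. -/
def S_PIN : Prop := ∀ (g : ℕ) (F L : Type) [Field F] [NumberField F] [Field L] [NumberField L]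
  [Algebra F L] (f : (𝓞 F)[X]) (θ : L), IsGen g f θ → SqF g f →
  ∀ 𝔭 : Ideal (𝓞 F), 𝔭.IsPrime → 𝔭 ≠ ⊥ → Irreducible (rd 𝔭 f) → ∀ x : L, x ≠ 0 →
    IsSquare (Algebra.norm F x) → ∀ 𝔓 : HeightOneSpectrum (𝓞 L), Ov 𝔭 𝔓 → Ev 𝔓 x

/-- Every prime of `L` lies over a prime of `F`. -/
def S_LIE : Prop := ∀ (F L : Type) [Field F] [NumberField F] [Field L] [NumberField L]
  [Algebra F L] (𝔓 : HeightOneSpectrum (𝓞 L)), ∃ w : HeightOneSpectrum (𝓞 F), Ov w.asIdeal 𝔓 ∧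
    (∀ a : 𝓞 F, a ∈ w.asIdeal ↔ algebraMap (𝓞 F) (𝓞 L) a ∈ 𝔓.asIdeal) ∧
    ∀ x : F, (w.valuation F x ≤ 1 → 𝔓.valuation L (algebraMap F L x) ≤ 1) ∧
      (w.valuation F x < 1 → 𝔓.valuation L (algebraMap F L x) < 1)

/-- The polynomials of the family are irreducible. -/
def S_IRR : Prop := ∀ (F : Type) [Field F] [NumberField F] (g W : ℕ) (f₁ f : (𝓞 F)[X]),
  GoodF g W f₁ → Cg (sp F W) f f₁ → f.Monic → f.natDegree = 2 * g + 1 → Irreducible (fF f)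

/-- The field `L`. -/
def S_GEN : Prop := ∀ (F : Type) [Field F] [NumberField F] (g : ℕ) (f : (𝓞 F)[X]),
  f.Monic → f.natDegree = 2 * g + 1 → Irreducible (fF f) →
  ∃ (L : Type) (_ : Field L) (_ : NumberField L) (_ : Algebra F L) (θ : L), IsGen g f θ

end Pool.Agent.N783.PF
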