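import Pool.Agent.N783.PF.Lat
import Pool.Agent.N783.PQ.Loc
import Pool.Agent.N874.JM.Stm

/-!
# Statements of the local parts, of the reciprocity law and of the main theorem

Project PF (helper783). The reciprocity law is derived from that over `ℚ` by transfer of the forms.
-/

set_option autoImplicit false
set_option linter.all false

open Polynomial IsDedekindDomain Matrix NumberField WithZero
open scoped Classical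

namespace Pool.Agent.N783.PF

open Pool.Agent.N352.PJ (Mt Typ dd)
open Pool.Agent.N874.PP (Ev Sq1 U0)
open Pool.Agent.N202.M4 (hasse hil IsSymbol)
open Pool.Agent.N783.PQ (LocIm tp Gm sg)
open Pool.Agent.N874.JM (LocF)

/-- The 2-Selmer group over `F` of the Jacobian of `y ^ 2 = f(x)` is zero. -/
def SelZero {F : Type} [Field F] [NumberField F] (f : (𝓞 F)[X]) : Prop :=
  ∀ h : F[X], IsCoprime h (fF f) → IsSquare (Algebra.norm F (AdjoinRoot.mk (fF f) h)) →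
    (∀ w : HeightOneSpectrum (𝓞 F), LocF (w.adicCompletion F) (fF f) h) →
    (∀ σ : F →+* ℝ, LocIm ℝ ((fF f).map σ) (h.map σ)) → ∃ s : F[X], fF f ∣ h - s ^ 2

/-! ### Quadratic forms -/

section frm

variable {F : Type} [Field F] [NumberField F] {ι : Type} [Fintype ι]

/-- The form `A` is isometric to the form `B` at `w` (approximately). -/
def Apx (w : HeightOneSpectrum (𝓞 F)) (A B : Matrix ι ι F) : Prop :=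
  ∀ k : ℕ, ∃ T : Matrix ι ι F, ∀ i j,
    w.valuation F ((T * A * Tᵀ) i j - B i j) ≤ WithZero.exp (-(k : ℤ))

/-- The transfer of the form `A` to `ℚ` (composition with the trace). -/
noncomputable def Tf (A : Matrix ι ι F) :
    Matrix (ι × Fin (Module.finrank ℚ F)) (ι × Fin (Module.finrank ℚ F)) ℚ :=
  Matrix.of fun p q => Algebra.trace ℚ F
    (Module.finBasis ℚ F p.2 * Module.finBasis ℚ F q.2 * A p.1 q.1)

/-- The form `M` has a diagonal form with Hasse invariant `ε`. -/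
def HV {E : Type} [Field E] (M : Matrix ι ι E) (ε : ℤ) : Prop :=
  ∃ (n : ℕ) (φ : Fin n ≃ ι) (a : Fin n → E) (T : Matrix (Fin n) (Fin n) E), (∀ i, a i ≠ 0) ∧
    T * Matrix.diagonal a * Tᵀ = M.submatrix φ φ ∧ hasse (hil E) (List.ofFn a) = ε

end frm

/-- The Hasse invariant is an invariant. -/
def S_HVG : Prop := ∀ (E : Type) [Field E] [CharZero E], IsSymbol (hil E) → ∀ (ι : Type) [Fintype ι]
  (M : Matrix ι ι E), M.IsSymm → M.det ≠ 0 →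
  (∃ ε : ℤ, (ε = 1 ∨ ε = -1) ∧ HV M ε) ∧ (∀ ε ε' : ℤ, HV M ε → HV M ε' → ε = ε') ∧
  ∀ (T : Matrix ι ι E) (ε : ℤ), T.det ≠ 0 → HV M ε → HV (T * M * Tᵀ) ε

/-- The Hasse invariant is locally constant. -/
def S_HVC : Prop := ∀ (p : ℕ) [Fact p.Prime] (ι : Type) [Fintype ι] (M : Matrix ι ι ℚ),
  M.IsSymm → M.det ≠ 0 → ∃ k : ℕ, ∀ M' : Matrix ι ι ℚ, M'.IsSymm →
  (∀ i j, ‖((M' i j - M i j : ℚ) : ℚ_[p])‖ ≤ (p : ℝ) ^ (-(k : ℤ))) → ∀ ε : ℤ,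
  HV (M.map (Rat.castHom ℚ_[p])) ε → HV (M'.map (Rat.castHom ℚ_[p])) ε

/-- Transfer and isometry at the primes over `p`. -/
def S_TRP : Prop := ∀ (F : Type) [Field F] [NumberField F] (p : ℕ) [Fact p.Prime] (ι : Type)
  [Fintype ι] (A B : Matrix ι ι F), A.IsSymm → B.IsSymm → A.det ≠ 0 → B.det ≠ 0 →
  (∀ w : HeightOneSpectrum (𝓞 F), (p : 𝓞 F) ∈ w.asIdeal → Apx w A B) → ∀ ε : ℤ,
  HV ((Tf A).map (Rat.castHom ℚ_[p])) ε → HV ((Tf B).map (Rat.castHom ℚ_[p])) ε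

/-- Transfer and isometry at the infinite places. -/
def S_TRR : Prop := ∀ (F : Type) [Field F] [NumberField F] (ι : Type)
  [Fintype ι] (A B : Matrix ι ι F), A.IsSymm → B.IsSymm → A.det ≠ 0 → B.det ≠ 0 →
  (∀ σ : F →+* ℝ, ∃ T : Matrix ι ι ℝ, T * A.map σ * Tᵀ = B.map σ) → ∀ ε : ℤ,
  HV ((Tf A).map (Rat.castHom ℝ)) ε → HV ((Tf B).map (Rat.castHom ℝ)) ε

/-- The discriminant of an extension of finite fields of even degree is not a square. -/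
def S_FFD : Prop := ∀ (k K : Type) [Field k] [Field K] [Finite K] [Algebra k K] (m : ℕ)
  (b : Module.Basis (Fin (2 * m)) k K) (c : K), 0 < m → (2 : k) ≠ 0 → c ≠ 0 →
  (Matrix.of fun i j => Algebra.trace k K (c * b i * b j)).det ≠ 0 ∧
  (IsSquare (Matrix.of fun i j => Algebra.trace k K (c * b i * b j)).det ↔ ¬ IsSquare c)

/-- The Hasse invariant of a trace form at an unramified prime. -/
def S_TFQ : Prop := ∀ (L : Type) [Field L] [NumberField L] (q : ℕ) [Fact q.Prime], q % 4 = 1 →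
  (∀ 𝔓 : HeightOneSpectrum (𝓞 L), (q : 𝓞 L) ∉ 𝔓.asIdeal ^ 2) →
  ∀ (ι : Type) [Fintype ι] (b : Module.Basis ι ℚ L) (c : L), c ≠ 0 →
  ∀ 𝔔 : HeightOneSpectrum (𝓞 L), (q : 𝓞 L) ∈ 𝔔.asIdeal →
  (∃ m : ℕ, Nat.card (𝓞 L ⧸ 𝔔.asIdeal) = q ^ (2 * m)) →
  (∀ 𝔓 : HeightOneSpectrum (𝓞 L), (q : 𝓞 L) ∈ 𝔓.asIdeal → 𝔓 ≠ 𝔔 → Ev 𝔓 c) →
  HV ((Matrix.of fun i j => Algebra.trace ℚ L (b i * b j * c)).map (Rat.castHom ℚ_[q]))
    (if ¬ Ev 𝔔 c ∧ Sq1 𝔔 ((q : L) * c) then -1 else 1)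

/-- Classes in the image of the Jacobian give isometric forms. -/
def S_ISO1 : Prop := ∀ (F : Type) [Field F] [NumberField F] (g : ℕ) (f : (𝓞 F)[X]) (h : F[X]),
  f.Monic → f.natDegree = 2 * g + 1 → IsCoprime h (fF f) →
  IsSquare (Algebra.norm F (AdjoinRoot.mk (fF f) h)) →
  (∀ w : HeightOneSpectrum (𝓞 F), LocF (w.adicCompletion F) (fF f) h →
    Apx w (Gm g (fF f) 1) (Gm g (fF f) h)) ∧
  ∀ σ : F →+* ℝ, LocIm ℝ ((fF f).map σ) (h.map σ) →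
    ∃ T : Mt g ℝ, T * (Gm g (fF f) 1).map σ * Tᵀ = (Gm g (fF f) h).map σ

/-- Unramified classes at odd primes give isometric forms. -/
def S_ISO2 : Prop := ∀ (g : ℕ) (F L : Type) [Field F] [NumberField F] [Field L] [NumberField L]
  [Algebra F L] (f : (𝓞 F)[X]) (θ : L), IsGen g f θ → SqF g f →
  ∀ w : HeightOneSpectrum (𝓞 F), (2 : 𝓞 F) ∉ w.asIdeal → ∀ h : F[X], aeval θ h ≠ 0 →
  IsSquare (Algebra.norm F (aeval θ h)) →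
  (∀ 𝔓 : HeightOneSpectrum (𝓞 L), Ov w.asIdeal 𝔓 → Ev 𝔓 (aeval θ h)) →
  Apx w (Gm g (fF f) 1) (Gm g (fF f) h)

/-- The invariant at `q` in `S`. -/
def S_HQ : Prop := ∀ (g W : ℕ) (F L : Type) [Field F] [NumberField F] [Field L] [NumberField L]
  [Algebra F L] (f : (𝓞 F)[X]) (θ : L) (S : Finset ℕ) (𝔮 : ℕ → Ideal (𝓞 F))
  (r P : ℕ → (𝓞 F)[X]), 1 ≤ g → IsGen g f θ → SqF g f → GoodS g W S 𝔮 r P →
  ∀ q ∈ S, ∀ [Fact q.Prime], Cg (sp F q) f (P q) →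
  ∀ 𝔔 : HeightOneSpectrum (𝓞 L), Ov (𝔮 q) 𝔔 → 𝔔.valuation L θ = 1 →
  ∀ h : F[X], aeval θ h ≠ 0 →
  (∀ 𝔓 : HeightOneSpectrum (𝓞 L), (q : 𝓞 L) ∈ 𝔓.asIdeal → 𝔓 ≠ 𝔔 → Ev 𝔓 (aeval θ h)) →
  HV ((Tf (Gm g (fF f) h)).map (Rat.castHom ℚ_[q]))
    (if ¬ Ev 𝔔 (aeval θ h) ∧ ¬ Sq1 𝔔 (aeval θ h * (q * θ)) then -1 else 1)

/-- The reciprocity law. -/
def S_REC : Prop := ∀ (g W : ℕ) (F L : Type) [Field F] [NumberField F] [Field L] [NumberField L]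
  [Algebra F L] (f : (𝓞 F)[X]) (θ : L) (S : Finset ℕ) (𝔮 : ℕ → Ideal (𝓞 F))
  (r P : ℕ → (𝓞 F)[X]), 1 ≤ g → IsGen g f θ → SqF g f → GoodS g W S 𝔮 r P →
  (∀ q ∈ S, Cg (sp F q) f (P q)) →
  ∀ 𝔔 : ℕ → HeightOneSpectrum (𝓞 L), (∀ q ∈ S, Ov (𝔮 q) (𝔔 q) ∧ (𝔔 q).valuation L θ = 1) →
  ∀ h : F[X], aeval θ h ≠ 0 → IsSquare (Algebra.norm F (aeval θ h)) →
    (∀ 𝔓 : HeightOneSpectrum (𝓞 L), (∀ q ∈ S, 𝔓 ≠ 𝔔 q) → Ev 𝔓 (aeval θ h)) →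
    (∀ w : HeightOneSpectrum (𝓞 F), (2 : 𝓞 F) ∈ w.asIdeal →
      LocF (w.adicCompletion F) (fF f) h) →
    (∀ σ : F →+* ℝ, LocIm ℝ ((fF f).map σ) (h.map σ)) →
    Even (S.filter fun q => ¬ Ev (𝔔 q) (aeval θ h) ∧
      ¬ Sq1 (𝔔 q) (aeval θ h * ((q : L) * θ))).card

/-! ### The local conditions -/

/-- The product of the elements of `J`. -/
abbrev Dp (J : Finset ℕ) : ℕ := ∏ q ∈ J, q

/-- Consequences of the local conditions for the twist by `Dp J`. -/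
def S_LOC : Prop := ∀ (g W : ℕ) (F L : Type) [Field F] [NumberField F] [Field L] [NumberField L]
  [Algebra F L] (f f₁ : (𝓞 F)[X]) (θ : L) (S J : Finset ℕ) (𝔮 : ℕ → Ideal (𝓞 F))
  (r P : ℕ → (𝓞 F)[X]), 1 ≤ g → IsGen g f θ → SqF g f → GoodF g W f₁ → GoodS g W S 𝔮 r P →
  Cg (sp F W) f f₁ → (∀ q ∈ S, Cg (sp F q) f (P q)) → J ⊆ S →
  ∀ h : F[X], aeval ((Dp J : L) * θ) h ≠ 0 → IsSquare (Algebra.norm F (aeval ((Dp J : L) * θ) h)) →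
    (∀ w : HeightOneSpectrum (𝓞 F),
      LocF (w.adicCompletion F) (fF (f.scaleRoots ((Dp J : ℕ) : 𝓞 F))) h) →
    (∀ σ : F →+* ℝ, LocIm ℝ ((fF (f.scaleRoots ((Dp J : ℕ) : 𝓞 F))).map σ) (h.map σ)) →
    (∀ 𝔓 : HeightOneSpectrum (𝓞 L), (∀ q ∈ J, Ov (𝔮 q) 𝔓 → 𝔓.valuation L θ ≠ 1) →
      Ev 𝔓 (aeval ((Dp J : L) * θ) h)) ∧
    (∀ q ∈ J, ∀ 𝔓 : HeightOneSpectrum (𝓞 L), Ov (𝔮 q) 𝔓 → 𝔓.valuation L θ = 1 →
      U0 𝔓 ((q : L) * θ) (aeval ((Dp J : L) * θ) h)) ∧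
    (∀ w : HeightOneSpectrum (𝓞 F), (2 : 𝓞 F) ∈ w.asIdeal →
      LocF (w.adicCompletion F) (fF f) (h.comp (C ((Dp J : ℕ) : F) * X))) ∧
    ∀ σ : F →+* ℝ, LocIm ℝ ((fF f).map σ) ((h.comp (C ((Dp J : ℕ) : F) * X)).map σ)

/-- The choice of the twist. -/
def S_CORE : Prop := ∀ (g : ℕ) (F : Type) [Field F] [NumberField F], 1 ≤ g → ∃ κ : ℕ,
  ∀ (L : Type) [Field L] [NumberField L] [Algebra F L] (f f₁ : (𝓞 F)[X]) (θ : L) (B N W : ℕ)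
  (S : Finset ℕ) (𝔮 : ℕ → Ideal (𝓞 F)) (r P : ℕ → (𝓞 F)[X]), κ ≤ W → IsGen g f θ → SqF g f →
  GoodF g W f₁ → GoodS g W S 𝔮 r P → Fam g B W f₁ S P f → 2 ^ κ * B ≤ 4 ^ N → 1 ≤ B →
  ¬ LBad g N κ S 𝔮 P f →
  ∃ J ⊆ S, ∀ h : F[X], aeval θ h ≠ 0 → IsSquare (Algebra.norm F (aeval θ h)) →
    (∀ 𝔓 : HeightOneSpectrum (𝓞 L), (∀ q ∈ J, Ov (𝔮 q) 𝔓 → 𝔓.valuation L θ ≠ 1) →
      Ev 𝔓 (aeval θ h)) →
    (∀ q ∈ J, ∀ 𝔓 : HeightOneSpectrum (𝓞 L), Ov (𝔮 q) 𝔓 → 𝔓.valuation L θ = 1 →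
      U0 𝔓 ((q : L) * θ) (aeval θ h)) →
    (∀ w : HeightOneSpectrum (𝓞 F), (2 : 𝓞 F) ∈ w.asIdeal →
      LocF (w.adicCompletion F) (fF f) h) →
    (∀ σ : F →+* ℝ, LocIm ℝ ((fF f).map σ) (h.map σ)) → IsSquare (aeval θ h)

/-! ### The main theorem -/

/-- The equation is minimal: there is no prime `𝔭` such that `𝔭 ^ (2 i)` divides the coefficient of
`x ^ (2 g + 1 - i)` for all `i > 0`. -/
def Min {F : Type} [Field F] [NumberField F] (g : ℕ) (f : (𝓞 F)[X]) : Prop :=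
  ∀ 𝔭 : Ideal (𝓞 F), 𝔭.IsPrime → 𝔭 ≠ ⊥ → ¬ ∀ j ≤ 2 * g, f.coeff j ∈ 𝔭 ^ (2 * (2 * g + 1 - j))

/-- The twists are minimal. -/
def S_MIN : Prop := ∀ (g W : ℕ) (F : Type) [Field F] [NumberField F] (S J : Finset ℕ)
  (𝔮 : ℕ → Ideal (𝓞 F)) (r P : ℕ → (𝓞 F)[X]) (f : (𝓞 F)[X]), 1 ≤ g → GoodS g W S 𝔮 r P →
  SqF g f → f.Monic → f.natDegree = 2 * g + 1 → (∀ q ∈ S, Cg (sp F q) f (P q)) → J ⊆ S →
  Min g (f.scaleRoots ((Dp J : ℕ) : 𝓞 F))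

/-- From the absence of strict classes to a twist without 2-Selmer group. -/
def S_TW : Prop := ∀ (g : ℕ) (F : Type) [Field F] [NumberField F], 1 ≤ g → ∃ κ : ℕ,
  ∀ (B N W : ℕ) (f₁ : (𝓞 F)[X]) (S : Finset ℕ) (𝔮 : ℕ → Ideal (𝓞 F)) (r P : ℕ → (𝓞 F)[X])
  (f : (𝓞 F)[X]), κ ≤ W → GoodF g W f₁ → GoodS g W S 𝔮 r P → Fam g B W f₁ S P f →
  2 ^ κ * B ≤ 4 ^ N → 1 ≤ B → ¬ LBad g N κ S 𝔮 P f →
  ∃ J ⊆ S, Irreducible (fF (f.scaleRoots ((Dp J : ℕ) : 𝓞 F))) ∧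
    SelZero (f.scaleRoots ((Dp J : ℕ) : 𝓞 F)) ∧ Min g (f.scaleRoots ((Dp J : ℕ) : 𝓞 F))

/-- A positive proportion. -/
def S_MAIN : Prop := ∀ (g : ℕ) (F : Type) [Field F] [NumberField F], 1 ≤ g →
  ∃ c : ℝ, 0 < c ∧ ∃ B₀ : ℕ, ∀ B ≥ B₀,
  {f : (𝓞 F)[X] | Ht g B f}.Finite ∧ c * ({f : (𝓞 F)[X] | Ht g B f}.ncard : ℝ) ≤
    ({f : (𝓞 F)[X] | Ht g B f ∧ Irreducible (fF f) ∧ SelZero f ∧ Min g f}.ncard : ℝ)

end Pool.Agent.N783.PF
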