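import Pool.Agent.N783.PF.Loc
import Pool.Agent.N835.PQ.Rec
import Pool.Agent.N394.PQ.PRD
import Pool.Agent.N446.M4.Sym

/-!
Copy of `Pool.Agent.N674.PF.Rec` (helper674) without `convert` (for the self-check of the hand-ins).

# Project PF (helper783), part REC: the reciprocity law over a number field

By helper674, after the version over the rational numbers by helper835.
-/

set_option autoImplicit false
set_option linter.all false

open Polynomial IsDedekindDomain Matrix NumberField WithZero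
open scoped Classical

namespace Pool.Agent.N783.PF.R2

open Pool.Agent.N352.PJ (Mt Typ dd)
open Pool.Agent.N874.PP (Ev Sq1 U0)
open Pool.Agent.N202.M4 (hasse hil IsSymbol)
open Pool.Agent.N783.PQ (LocIm tp Gm sg)
open Pool.Agent.N874.JM (LocF)
open Pool.Agent.N783.PF

section gen

variable {g : ℕ} {F L : Type} [Field F] [NumberField F] [Field L] [NumberField L] [Algebra F L]
  {f : (𝓞 F)[X]} {θ : L}

lemma fF_deg (hG : IsGen g f θ) : (fF f).natDegree = 2 * g + 1 := by
  rw [← hG.deg]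
  exact hG.mon.natDegree_map _

lemma fF_mon (hG : IsGen g f θ) : (fF f).Monic := hG.mon.map _

lemma aeval_mod (hG : IsGen g f θ) (P : F[X]) : aeval θ (P %ₘ fF f) = aeval θ P := by
  conv_rhs => rw [← modByMonic_add_div P (fF f)]
  rw [map_add, map_mul, hG.root, zero_mul, add_zero]

lemma repr_aeval (hG : IsGen g f θ) (P : F[X]) (i : Fin (2 * g + 1)) :
    hG.basis.repr (aeval θ P) i = (P %ₘ fF f).coeff i := by
  have hdeg : (P %ₘ fF f).natDegree < 2 * g + 1 := by
    rw [← fF_deg hG]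
    refine natDegree_modByMonic_lt P (fF_mon hG) ?_
    intro h
    have := fF_deg hG
    rw [h, natDegree_one] at this
    omega
  rw [← aeval_mod hG, aeval_eq_sum_range' hdeg,
    ← Fin.sum_univ_eq_sum_range (fun i => (P %ₘ fF f).coeff i • θ ^ i)]
  have e : ∑ i : Fin (2 * g + 1), (P %ₘ fF f).coeff i • θ ^ (i : ℕ) =
      ∑ i : Fin (2 * g + 1), (P %ₘ fF f).coeff i • hG.basis i := by
    refine Finset.sum_congr rfl fun j _ => ?_
    rw [hG.basis_apply]
  rw [e, hG.basis.repr_sum_self]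

lemma top_aeval (hG : IsGen g f θ) (P : F[X]) : hG.top (aeval θ P) = tp g (fF f) P := by
  unfold IsGen.top tp
  rw [Module.Basis.coord_apply, repr_aeval hG]
  rfl

lemma norm_eq (hG : IsGen g f θ) (h : F[X]) :
    Algebra.norm F (AdjoinRoot.mk (fF f) h) = Algebra.norm F (aeval θ h) := by
  have hm := fF_mon hG
  have hd := fF_deg hG
  rw [Algebra.norm_eq_matrix_det hG.basis,
    Algebra.norm_eq_matrix_det ((AdjoinRoot.powerBasis' hm).basis.reindex (finCongr hd))]
  congr 1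
  ext i j
  rw [Algebra.leftMulMatrix_eq_repr_mul,
    Algebra.leftMulMatrix_eq_repr_mul, Module.Basis.reindex_apply, hG.basis_apply,
    PowerBasis.basis_eq_pow, AdjoinRoot.powerBasis'_gen]
  have e1 : aeval θ h * θ ^ (j : ℕ) = aeval θ (h * X ^ (j : ℕ)) := by
    rw [map_mul, map_pow, aeval_X]
  have e2 : AdjoinRoot.mk (fF f) h * AdjoinRoot.root (fF f) ^
      (((finCongr hd).symm j : Fin _) : ℕ) =
      AdjoinRoot.mk (fF f) (h * X ^ (j : ℕ)) := by
    rw [map_mul, map_pow, AdjoinRoot.mk_X]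
    rfl
  rw [e1, repr_aeval hG]
  refine (congrArg (fun x => ((AdjoinRoot.powerBasis' hm).basis.reindex (finCongr hd)).repr x i)
    e2).trans ?_
  rw [Module.Basis.repr_reindex_apply]
  refine (AdjoinRoot.powerBasisAux'_repr_apply_to_fun hm _ _).trans ?_
  rw [AdjoinRoot.modByMonicHom_mk]
  rfl

lemma Gm_det (hG : IsGen g f θ) (h : F[X]) (hα : aeval θ h ≠ 0) : (Gm g (fF f) h).det ≠ 0 := by
  intro h0
  obtain ⟨v, hv, hv0⟩ := Matrix.exists_mulVec_eq_zero_iff.2 h0
  set y : L := ∑ j, v j • hG.basis j with hy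
  have hy0 : y ≠ 0 := by
    intro h1
    apply hv
    have h2 := hG.basis.repr_sum_self v
    rw [← hy, h1] at h2
    rw [← h2]
    simp
  have h1 : ∀ i : Fin (2 * g + 1), hG.top (aeval θ h * y * hG.basis i) = 0 := by
    intro i
    have h2 := congrFun hv0 i
    rw [Pi.zero_apply] at h2
    rw [← h2, hy, Finset.mul_sum, Finset.sum_mul, map_sum]
    unfold Matrix.mulVec dotProduct
    refine Finset.sum_congr rfl fun j _ => ?_
    rw [mul_smul_comm, smul_mul_assoc, map_smul, smul_eq_mul, mul_comm]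
    congr 1
    rw [hG.basis_apply, hG.basis_apply]
    have e1 : aeval θ h * θ ^ (j : ℕ) * θ ^ (i : ℕ) = aeval θ (h * X ^ ((i : ℕ) + j)) := by
      rw [map_mul, map_pow, aeval_X]
      ring
    rw [e1, top_aeval hG]
    rfl
  have h2 : ∀ z : L, hG.top (aeval θ h * y * z) = 0 := by
    intro z
    rw [← hG.basis.sum_repr z, Finset.mul_sum, map_sum]
    refine Finset.sum_eq_zero fun i _ => ?_
    rw [mul_smul_comm, map_smul, h1, smul_zero]
  have h3 := h2 ((aeval θ h * y)⁻¹ * hG.basis (Fin.last (2 * g)))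
  rw [← mul_assoc, mul_inv_cancel₀ (mul_ne_zero hα hy0), one_mul] at h3
  unfold IsGen.top at h3
  rw [Module.Basis.coord_apply, Module.Basis.repr_self, Finsupp.single_eq_same] at h3
  exact one_ne_zero h3

lemma cop (hG : IsGen g f θ) {h : F[X]} (hα : aeval θ h ≠ 0) : IsCoprime h (fF f) := by
  have hirr : Irreducible (fF f) := by
    have hi : IsIntegral F θ := ⟨fF f, fF_mon hG, hG.root⟩
    have h1 := minpoly.dvd F θ hG.root
    have h2 : (minpoly F θ).natDegree = 2 * g + 1 := by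
      have h3 : (minpoly F θ).natDegree ≤ 2 * g + 1 := by
        rw [← fF_deg hG]
        exact natDegree_le_of_dvd h1 (fF_mon hG).ne_zero
      by_contra h4
      have h5 : (minpoly F θ).natDegree < 2 * g + 1 := lt_of_le_of_ne h3 h4
      have h6 : (minpoly F θ) %ₘ fF f = minpoly F θ := by
        rw [modByMonic_eq_self_iff (fF_mon hG)]
        rw [degree_eq_natDegree (minpoly.ne_zero hi), degree_eq_natDegree (fF_mon hG).ne_zero,
          fF_deg hG]
        exact_mod_cast h5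
      have h7 : ∀ i : Fin (2 * g + 1), (minpoly F θ).coeff i = 0 := by
        intro i
        have h8 := repr_aeval hG (minpoly F θ) i
        rw [minpoly.aeval, h6] at h8
        rw [← h8]
        simp
      have h9 := h7 ⟨_, h5⟩
      have h10 : (minpoly F θ).leadingCoeff = 1 := minpoly.monic hi
      unfold leadingCoeff at h10
      simp only at h9
      rw [h9] at h10
      exact zero_ne_one h10
    have h3 : minpoly F θ = fF f := by
      refine (Polynomial.eq_of_monic_of_dvd_of_natDegree_le (minpoly.monic hi) (fF_mon hG) h1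
        ?_).symm
      rw [h2, fF_deg hG]
    rw [← h3]
    exact minpoly.irreducible hi
  rw [isCoprime_comm, hirr.coprime_iff_not_dvd]
  rintro ⟨P, hP⟩
  apply hα
  rw [hP, map_mul, hG.root, zero_mul]

end gen

/-! ### The transfer -/

section transfer

variable {F : Type} [Field F] [NumberField F] {ι : Type} [Fintype ι]

lemma Tf_symm {A : Matrix ι ι F} (hA : A.IsSymm) : (Tf A).IsSymm := by
  ext p q
  rw [Matrix.transpose_apply]
  unfold Tf
  rw [Matrix.of_apply, Matrix.of_apply, hA.apply, mul_comm (Module.finBasis ℚ F q.2)]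

lemma Tf_det {A : Matrix ι ι F} (hA : A.det ≠ 0) : (Tf A).det ≠ 0 := by
  intro h0
  obtain ⟨v, hv, hv0⟩ := Matrix.exists_mulVec_eq_zero_iff.2 h0
  set b := Module.finBasis ℚ F with hb
  set y : ι → F := fun j => ∑ l, v (j, l) • b l with hy
  have h1 : ∀ i k, Algebra.trace ℚ F (b k * (A *ᵥ y) i) = 0 := by
    intro i k
    have h2 := congrFun hv0 (i, k)
    rw [Pi.zero_apply] at h2
    rw [← h2]
    unfold Matrix.mulVec dotProduct
    rw [Finset.mul_sum, map_sum, Fintype.sum_prod_type]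
    refine Finset.sum_congr rfl fun j _ => ?_
    simp only [hy]
    rw [Finset.mul_sum, Finset.mul_sum, map_sum]
    refine Finset.sum_congr rfl fun l _ => ?_
    unfold Tf
    rw [Matrix.of_apply, mul_smul_comm, mul_smul_comm, map_smul, smul_eq_mul, mul_comm (v (j, l))]
    congr 2
    ring
  have h2 : ∀ i, (A *ᵥ y) i = 0 := by
    intro i
    have h3 : ∀ z : F, Algebra.trace ℚ F (z * (A *ᵥ y) i) = 0 := by
      intro z
      rw [← b.sum_repr z, Finset.sum_mul, map_sum]
      refine Finset.sum_eq_zero fun k _ => ?_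
      rw [smul_mul_assoc, map_smul, h1, smul_zero]
    by_contra hne
    have h4 := h3 (((A *ᵥ y) i)⁻¹)
    have h5 := Algebra.trace_algebraMap (S := F) (1 : ℚ)
    rw [map_one] at h5
    rw [inv_mul_cancel₀ hne, h5, nsmul_eq_mul, mul_one] at h4
    have h6 : 0 < Module.finrank ℚ F := Module.finrank_pos
    exact h6.ne' (by exact_mod_cast h4)
  have h3 : y = 0 := Matrix.eq_zero_of_mulVec_eq_zero hA (funext h2)
  apply hv
  funext p
  obtain ⟨j, l⟩ := p
  have h4 : ∑ l, v (j, l) • b l = 0 := congrFun h3 j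
  have h5 := Fintype.linearIndependent_iff.1 b.linearIndependent (fun l => v (j, l)) h4 l
  exact h5

/-- a rational diagonal form -/
lemma HV_map (E : Type) [Field E] [CharZero E] (M : Matrix ι ι ℚ) {n : ℕ} (φ : Fin n ≃ ι)
    {a : Fin n → ℚ} {T : Matrix (Fin n) (Fin n) ℚ} (ha : ∀ i, a i ≠ 0)
    (hT : T * Matrix.diagonal a * Tᵀ = M.submatrix φ φ) :
    HV (M.map (Rat.castHom E)) (hasse (hil E) (List.ofFn fun i => (a i : E))) := by
  refine ⟨n, φ, fun i => (a i : E), T.map (Rat.castHom E), fun i => ?_, ?_, rfl⟩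
  · change (a i : E) ≠ 0
    exact_mod_cast ha i
  · have h1 : (M.map (Rat.castHom E)).submatrix φ φ = (M.submatrix φ φ).map (Rat.castHom E) := rfl
    rw [h1, ← hT, Matrix.map_mul, Matrix.map_mul, Matrix.transpose_map]
    congr 2
    ext i j
    rw [Matrix.map_apply, Matrix.diagonal_apply, Matrix.diagonal_apply]
    split_ifs
    · rfl
    · simp

lemma HV_uniq (h1 : S_HVG) (E : Type) [Field E] [CharZero E] (hs : IsSymbol (hil E))
    (M : Matrix ι ι ℚ) (hM : M.IsSymm) (hd : M.det ≠ 0) {ε ε' : ℤ}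
    (h : HV (M.map (Rat.castHom E)) ε) (h' : HV (M.map (Rat.castHom E)) ε') : ε = ε' := by
  refine (h1 E hs ι (M.map (Rat.castHom E)) ?_ ?_).2.1 ε ε' h h'
  · rw [Matrix.IsSymm, ← Matrix.transpose_map, hM.eq]
  · rw [← RingHom.mapMatrix_apply, ← RingHom.map_det]
    intro h0
    exact hd ((map_eq_zero_iff _ (Rat.castHom E).injective).1 h0)

end transfer

lemma pr_eq {K : Type} [Field K] [NumberField K] {p q : ℕ} (hp : p.Prime) (hq : q.Prime)
    {𝔓 : HeightOneSpectrum (𝓞 K)} (h1 : (p : 𝓞 K) ∈ 𝔓.asIdeal) (h2 : (q : 𝓞 K) ∈ 𝔓.asIdeal) :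
    p = q := by
  by_contra hne
  have hc : IsCoprime (p : ℤ) (q : ℤ) :=
    Nat.isCoprime_iff_coprime.2 ((Nat.coprime_primes hp hq).2 hne)
  obtain ⟨u, v, huv⟩ := hc
  have h3 : (1 : 𝓞 K) ∈ 𝔓.asIdeal := by
    have := congrArg (Int.cast : ℤ → 𝓞 K) huv
    push_cast at this
    rw [← this]
    exact 𝔓.asIdeal.add_mem (𝔓.asIdeal.mul_mem_left _ h1) (𝔓.asIdeal.mul_mem_left _ h2)
  exact 𝔓.isPrime.ne_top ((Ideal.eq_top_iff_one _).2 h3)

theorem det_inst {ι R : Type} [Fintype ι] [CommRing R] (d d' : DecidableEq ι) (M : Matrix ι ι R) :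
    @Matrix.det ι d _ R _ M = @Matrix.det ι d' _ R _ M := by
  obtain rfl : d = d' := Subsingleton.elim d d'
  rfl

/-- **The reciprocity law.** -/
theorem rec (h1 : S_HVG) (h2 : S_TRP) (h3 : S_TRR) (h4 : S_ISO1) (h5 : S_ISO2) (h6 : S_HQ) :
    S_REC := by
  intro g W F L _ _ _ _ _ f θ S 𝔮 r P hg hG hsf hS hF 𝔔 h𝔔 h hα hsq hev hl2 hlR
  have hα1 : aeval θ (1 : F[X]) ≠ 0 := by
    rw [map_one]
    exact one_ne_zero
  obtain ⟨A, hA⟩ : ∃ A : Mt g F, A = Gm g (fF f) 1 := ⟨_, rfl⟩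
  obtain ⟨B, hB⟩ : ∃ B : Mt g F, B = Gm g (fF f) h := ⟨_, rfl⟩
  have hAs : A.IsSymm := by rw [hA]; exact Pool.Agent.N835.PQ.Gm_symm g _ _
  have hBs : B.IsSymm := by rw [hB]; exact Pool.Agent.N835.PQ.Gm_symm g _ _
  have hAd : A.det ≠ 0 := by rw [hA]; exact Gm_det hG 1 hα1
  have hBd : B.det ≠ 0 := by rw [hB]; exact Gm_det hG h hα
  have hAd' : @Matrix.det (Fin (2 * g + 1)) (fun a b => Classical.propDecidable (a = b)) _ F _ A
      ≠ 0 := ne_of_eq_of_ne (det_inst _ _ _) hAd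
  have hBd' : @Matrix.det (Fin (2 * g + 1)) (fun a b => Classical.propDecidable (a = b)) _ F _ B
      ≠ 0 := ne_of_eq_of_ne (det_inst _ _ _) hBd
  have hTA : (Tf A).det ≠ 0 := ne_of_eq_of_ne (det_inst _ _ _) (Tf_det hAd')
  have hTB : (Tf B).det ≠ 0 := ne_of_eq_of_ne (det_inst _ _ _) (Tf_det hBd')
  have hTAs := Tf_symm hAs
  have hTBs := Tf_symm hBs
  -- diagonal forms
  obtain ⟨n, φ⟩ : ∃ n : ℕ, Nonempty (Fin n ≃ Fin (2 * g + 1) × Fin (Module.finrank ℚ F)) :=
    ⟨_, ⟨(Fintype.equivFin _).symm⟩⟩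
  obtain ⟨φ⟩ := φ
  obtain ⟨a, T, ha, -, hT⟩ := Pool.Agent.N835.PQ.exists_diag ((Tf A).submatrix φ φ)
    (by rw [Matrix.IsSymm, Matrix.transpose_submatrix, hTAs.eq])
    (by rw [Matrix.det_submatrix_equiv_self]; exact hTA)
  obtain ⟨b, R, hb, -, hR⟩ := Pool.Agent.N835.PQ.exists_diag ((Tf B).submatrix φ φ)
    (by rw [Matrix.IsSymm, Matrix.transpose_submatrix, hTBs.eq])
    (by rw [Matrix.det_submatrix_equiv_self]; exact hTB)
  have hsym := Pool.Agent.N446.M4.sym_
  have hVA : ∀ (E : Type) [Field E] [CharZero E], HV ((Tf A).map (Rat.castHom E))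
      (hasse (hil E) (List.ofFn fun i => (a i : E))) := fun E _ _ => HV_map E _ φ ha hT
  have hVB : ∀ (E : Type) [Field E] [CharZero E], HV ((Tf B).map (Rat.castHom E))
      (hasse (hil E) (List.ofFn fun i => (b i : E))) := fun E _ _ => HV_map E _ φ hb hR
  have hcop := cop hG hα
  have hnorm : IsSquare (Algebra.norm F (AdjoinRoot.mk (fF f) h)) := by
    rw [norm_eq hG]
    exact hsq
  obtain ⟨hisoW, hisoR⟩ := h4 F g f h hG.mon hG.deg hcop hnorm
  rw [← hA, ← hB] at hisoW hisoR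
  have hSp : ∀ q ∈ S, q.Prime := fun q hq => (hS q hq).1
  have hQm : ∀ q ∈ S, (q : 𝓞 L) ∈ (𝔔 q).asIdeal := by
    intro q hq
    have h7 := (h𝔔 q hq).1 (q : 𝓞 F) (hS q hq).2.2.2.2.2.2.1
    rwa [map_natCast] at h7
  set ε : ℕ → ℤ := fun q => if ¬ Ev (𝔔 q) (aeval θ h) ∧ ¬ Sq1 (𝔔 q) (aeval θ h * ((q : L) * θ))
    then -1 else 1 with hε
  have hT1 : @Matrix.det _ (fun a b => Classical.propDecidable (a = b)) _ ℚ _ (Tf A) ≠ 0 :=
    ne_of_eq_of_ne (det_inst _ _ _) hTA
  have hT2 : @Matrix.det _ (fun a b => Classical.propDecidable (a = b)) _ ℚ _ (Tf B) ≠ 0 :=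
    ne_of_eq_of_ne (det_inst _ _ _) hTB
  have key := Pool.Agent.N394.PQ.prd n b a hb ha S hSp
    (by
      have e1 := h3 F (Fin (2 * g + 1)) A B hAs hBs hAd' hBd' (fun σ => hisoR σ (hlR σ)) _ (hVA ℝ)
      exact HV_uniq h1 ℝ Pool.Agent.N835.PQ.symR (Tf B) hTBs hT2 (hVB ℝ) e1)
    (by
      intro p hp hpS
      have hapx : ∀ w : HeightOneSpectrum (𝓞 F), (p : 𝓞 F) ∈ w.asIdeal → Apx w A B := by
        intro w hw
        rcases eq_or_ne p 2 with hp2 | hp2
        · apply hisoW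
          apply hl2
          rw [hp2] at hw
          exact_mod_cast hw
        · rw [hA, hB]
          refine h5 g F L f θ hG hsf w ?_ h hα hsq ?_
          · intro h2w
            apply hp2
            refine pr_eq hp.out Nat.prime_two hw ?_
            exact_mod_cast h2w
          · intro 𝔓 hov
            refine hev 𝔓 fun q hq he => ?_
            have h7 := hQm q hq
            rw [← he] at h7
            have h8 := hov (p : 𝓞 F) hw
            rw [map_natCast] at h8
            have h9 := pr_eq hp.out (hSp q hq) h8 h7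
            rw [h9] at hpS
            exact hpS hq
      have e1 := h2 F p (Fin (2 * g + 1)) A B hAs hBs hAd' hBd' hapx _ (hVA ℚ_[p])
      exact HV_uniq h1 ℚ_[p] (hsym p) (Tf B) hTBs hT2 (hVB ℚ_[p]) e1)
    ε
    (by
      intro q hq
      simp only [hε]
      split_ifs
      · exact Or.inr rfl
      · exact Or.inl rfl)
    (by
      intro q hq hqp
      have hevq : ∀ 𝔓 : HeightOneSpectrum (𝓞 L), (q : 𝓞 L) ∈ 𝔓.asIdeal → 𝔓 ≠ 𝔔 q →
          Ev 𝔓 (aeval θ h) := by
        intro 𝔓 hov hne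
        refine hev 𝔓 fun q' hq' he => ?_
        have h7 := hQm q' hq'
        rw [← he] at h7
        have h8 := pr_eq (hSp q hq) (hSp q' hq') hov h7
        subst h8
        exact hne he
      have hev1 : ∀ 𝔓 : HeightOneSpectrum (𝓞 L), Ev 𝔓 (aeval θ (1 : F[X])) := by
        intro 𝔓
        refine ⟨1, ?_⟩
        rw [map_one, map_one, one_pow]
      have e1 := h6 g W F L f θ S 𝔮 r P hg hG hsf hS q hq (hF q hq) (𝔔 q) (h𝔔 q hq).1
        (h𝔔 q hq).2 h hα hevq
      have e2 := h6 g W F L f θ S 𝔮 r P hg hG hsf hS q hq (hF q hq) (𝔔 q) (h𝔔 q hq).1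
        (h𝔔 q hq).2 1 hα1 (fun 𝔓 _ _ => hev1 𝔓)
      rw [← hB] at e1
      rw [← hA, if_neg (fun hc => hc.1 (hev1 _))] at e2
      have e3 := HV_uniq h1 ℚ_[q] (hsym q) (Tf B) hTBs hT2 (hVB ℚ_[q]) e1
      have e4 := HV_uniq h1 ℚ_[q] (hsym q) (Tf A) hTAs hT1 (hVA ℚ_[q]) e2
      rw [e3, e4, mul_one])
  have hfil : (S.filter fun q => ε q = -1) = S.filter fun q => ¬ Ev (𝔔 q) (aeval θ h) ∧
      ¬ Sq1 (𝔔 q) (aeval θ h * ((q : L) * θ)) := by
    refine Finset.filter_congr fun q _ => ?_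
    simp only [hε]
    split_ifs with h7
    · simp [h7]
    · simp [h7]
  rw [hfil] at key
  exact key

end Pool.Agent.N783.PF.R2
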