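import Pool.Agent.N783.PF.Loc
import Pool.Agent.N835.PQ.Rec
import Pool.Agent.N374.PF.TrrA

/-!
Copy of `Pool.Agent.N374.PF.Trr` (helper374) without `convert` (for the self-check of the hand-ins).

# Project PF (helper783), part TRR: transfer and isometry at the infinite places

By helper374.
-/

set_option autoImplicit false
set_option linter.all false

open Matrix NumberField
open scoped Classical

namespace Pool.Agent.N783.PF.R2

open Pool.Agent.N783.PF Pool.Agent.N374.PF

theorem det_inst' {ι R : Type} [Fintype ι] [CommRing R] (d d' : DecidableEq ι) (M : Matrix ι ι R) :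
    @Matrix.det ι d _ R _ M = @Matrix.det ι d' _ R _ M := by
  obtain rfl : d = d' := Subsingleton.elim d d'
  rfl

/-- Transfer and isometry at the infinite places. -/
theorem trr (h1 : S_HVG) : S_TRR := by
  intro F _ _ ι _ A B hA hB hAd hBd h ε hε
  obtain ⟨hd, T, hT, e⟩ := TrrA.transfer A B hA hB (ne_of_eq_of_ne (det_inst' _ _ _) hAd) (ne_of_eq_of_ne (det_inst' _ _ _) hBd) h
    ((Tf A).map (Rat.castHom ℝ)) ((Tf B).map (Rat.castHom ℝ)) (fun p q => rfl) (fun p q => rfl)
  have hs : ((Tf A).map (Rat.castHom ℝ)).IsSymm := by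
    ext p q
    rw [Matrix.transpose_apply, Matrix.map_apply, Matrix.map_apply]
    unfold Tf
    rw [Matrix.of_apply, Matrix.of_apply, ← hA.apply p.1 q.1]
    congr 3
    ring
  have := (h1 ℝ Pool.Agent.N835.PQ.symR _ _ hs (ne_of_eq_of_ne (det_inst' _ _ _) hd)).2.2 T ε
    (ne_of_eq_of_ne (det_inst' _ _ _) hT) hε
  rwa [e] at this

end Pool.Agent.N783.PF.R2
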