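import Pool.Agent.N783.PF.Fin
import Pool.Agent.N490.PF.Pts
import Pool.Agent.N42.PF.CQ
import Pool.Agent.N456.PF.Pb
import Pool.Agent.N999.PF.Orb
import Pool.Agent.N134.PF.Bad
import Pool.Agent.N710.PF.Exs
import Pool.Agent.N352.PF.All
import Pool.Agent.N352.PF.Dsc
import Pool.Agent.N707.PF.Maj
import Pool.Agent.N547.PF.Dis
import Pool.Agent.N255.PF.Red
import Pool.Agent.N169.PF.Typ
import Pool.Agent.N614.PF.Chi
import Pool.Agent.N482.PF.SQ
import Pool.Agent.N438.PF.LB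
import Pool.Agent.N225.PF.Nbr
import Pool.Agent.N667.PF.Sqf
import Pool.Agent.N31.PF.Int
import Pool.Agent.N862.PF.SD
import Pool.Agent.N862.PF.TV
import Pool.Agent.N73.PF.Exq
import Pool.Agent.N426.PF.Par
import Pool.Agent.N459.PF.Ram
import Pool.Agent.N286.PF.HV
import Pool.Agent.N935.PF.TRP
import Pool.Agent.N783.PF.Trr2
import Pool.Agent.N591.PF.Iso1
import Pool.Agent.N747.PF.Iso2
import Pool.Agent.N849.PF.Hq
import Pool.Agent.N783.PF.Rec2
import Pool.Agent.N78.PF.Loc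
import Pool.Agent.N771.PF.Core
import Pool.Agent.N170.PF.Tw
import Pool.Agent.N99.PF.Main
import Pool.Agent.N547.PF.Min
import Pool.Agent.N545.PF.TFQ
import Pool.Agent.N61.PF.Fin1
import Pool.Agent.N630.PP.GP
import Pool.Agent.N42.QM.Glf
import Pool.Agent.N521.QM.Selc
import Pool.Agent.N713.QM.GFC
import Pool.Agent.N459.QM.FinC
import Pool.Agent.N530.QM.Farc

/-!
# Assembly of project PF (helper783)
-/

set_option autoImplicit false

namespace Pool.Agent.N783.PF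

theorem bad : S_BAD :=
  Pool.Agent.N134.PF.bad
    (Pool.Agent.N456.PF.pb Pool.Agent.N490.PF.pts Pool.Agent.N42.PF.cqa Pool.Agent.N42.PF.cqb)
    (Pool.Agent.N456.PF.pb0 Pool.Agent.N490.PF.pts) (Pool.Agent.N999.PF.orb Pool.Agent.N490.PF.pts)

theorem typ : S_TYP :=
  Pool.Agent.N169.PF.typ (Pool.Agent.N255.PF.red Pool.Agent.N547.PF.dis) Pool.Agent.N707.PF.MAJ.maj

theorem lb : S_LB :=
  Pool.Agent.N438.PF.lb typ Pool.Agent.N707.PF.MAJ.maj Pool.Agent.N614.PF.chi Pool.Agent.N482.PF.sq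

theorem sqf : S_SQF :=
  Pool.Agent.N667.PF.sqf Pool.Agent.N225.PF.nbr lb Pool.Agent.N352.PF.dscT Pool.Agent.N667.PF.gen

theorem int : S_INT := Pool.Agent.N31.PF.int
theorem exq : S_EXQ := Pool.Agent.N73.PF.exq int
theorem csq : S_CSQ := Pool.Agent.N73.PF.csq int

theorem tfq : S_TFQ := Pool.Agent.N545.PF.tfq0

theorem hq : S_HQ := Pool.Agent.N849.PF.hq tfq Pool.Agent.N286.PF.hvg int exq csq

theorem rec : S_REC :=
  Pool.Agent.N783.PF.R2.rec Pool.Agent.N286.PF.hvg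
    (Pool.Agent.N935.PF.TRP.trp Pool.Agent.N286.PF.hvg Pool.Agent.N286.PF.hvc)
    (Pool.Agent.N783.PF.R2.trr Pool.Agent.N286.PF.hvg) Pool.Agent.N591.PF.iso1
    (Pool.Agent.N747.PF.iso2 int) hq

theorem core : S_CORE :=
  Pool.Agent.N771.PF.core exq (Pool.Agent.N426.PF.ns int exq) rec
    (Pool.Agent.N862.PF.sd int) (Pool.Agent.N862.PF.tv int) lb

theorem loc : S_LOC :=
  Pool.Agent.N78.PF.loc int (Pool.Agent.N426.PF.pin int) (Pool.Agent.N426.PF.par int)
    (Pool.Agent.N426.PF.parq int exq) (Pool.Agent.N459.PF.ram int) csq exq Pool.Agent.N459.PF.lie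

theorem tw : S_TW :=
  Pool.Agent.N170.PF.tw sqf Pool.Agent.N667.PF.irr Pool.Agent.N667.PF.gen core loc
    Pool.Agent.N547.PF.min

theorem main : S_MAIN :=
  Pool.Agent.N99.PF.main Pool.Agent.N490.PF.pts Pool.Agent.N352.PF.famT bad Pool.Agent.N710.PF.exs
    tw

/-! ### Elliptic curves: the Selmer group in terms of cocycles and finiteness -/

theorem selc : Pool.Agent.N874.QM.S_SELC :=
  Pool.Agent.N521.QM.selc
    (Pool.Agent.N42.QM.glf Pool.Agent.N630.PP.gp1 Pool.Agent.N630.PP.gp2 Pool.Agent.N630.PP.gp3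
      Pool.Agent.N630.PP.gp4) Pool.Agent.N530.QM.farc Pool.Agent.N42.QM.farr

theorem fin1 : S_FIN1 :=
  Pool.Agent.N61.PF.fin1 Pool.Agent.N490.PF.pts main selc Pool.Agent.N713.QM.gfc
    Pool.Agent.N459.QM.finc

end Pool.Agent.N783.PF
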