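import Pool.Agent.N783.PF.Loc
import Pool.Agent.N874.QM.Stm

/-!
# The theorem for elliptic curves: statement

Project PF (helper783).
-/

set_option autoImplicit false
set_option linter.all false

open Polynomial IsDedekindDomain NumberField
open scoped Classical

namespace Pool.Agent.N783.PF

open Pool.Agent.N874.PP (sW)
open Pool.Agent.TH115.GD (Pt)
open Pool.Agent.N874.QM (SelC ShaC)

/-- Minimal equations of elliptic curves of height at most `Y`. -/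
structure Crv {F : Type} [Field F] [NumberField F] (Y : ℝ) (p : 𝓞 F × 𝓞 F) : Prop where
  disc : 4 * p.1 ^ 3 + 27 * p.2 ^ 2 ≠ 0
  min : ∀ 𝔭 : Ideal (𝓞 F), 𝔭.IsPrime → 𝔭 ≠ ⊥ → ¬ (p.1 ∈ 𝔭 ^ 4 ∧ p.2 ∈ 𝔭 ^ 6)
  ht : ∀ σ : F →+* ℂ, 4 * ‖σ (p.1 : F)‖ ^ 3 ≤ Y ∧ 27 * ‖σ (p.2 : F)‖ ^ 2 ≤ Y

/-- Trivial 2-Selmer group, no 2-part in the Tate-Shafarevich group, finitely many points. -/
structure Good {F : Type} [Field F] [NumberField F] (p : 𝓞 F × 𝓞 F) : Prop where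
  sel : SelC (sW (p.1 : F) (p.2 : F))
  sha : ShaC (sW (p.1 : F) (p.2 : F))
  fin : Finite (Pt (sW (p.1 : F) (p.2 : F)) F)
  odd : Odd (Nat.card (Pt (sW (p.1 : F) (p.2 : F)) F))

/-- The theorem for elliptic curves. -/
def S_FIN1 : Prop := ∀ (F : Type) [Field F] [NumberField F], ∃ c : ℝ, 0 < c ∧ ∃ Y₀ : ℝ,
  ∀ Y : ℝ, {p : 𝓞 F × 𝓞 F | Crv Y p}.Finite ∧ (Y₀ ≤ Y → 0 < {p : 𝓞 F × 𝓞 F | Crv Y p}.ncard ∧
    c * ({p : 𝓞 F × 𝓞 F | Crv Y p}.ncard : ℝ) ≤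
      ({p : 𝓞 F × 𝓞 F | Crv Y p ∧ Good p}.ncard : ℝ))

end Pool.Agent.N783.PF
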