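import Pool.Agent.N783.PF.Loc
import Pool.Agent.N874.Jac.Def
import Pool.Agent.N352.JB.All

/-!
# From the explicit 2-Selmer group to the Jacobian and its Tate-Shafarevich group

Project PF (helper783), with project JB of helper352.
-/

set_option autoImplicit false
set_option linter.all false

open Polynomial IsDedekindDomain NumberField
open scoped Classical

namespace Pool.Agent.N783.PF

open Pool.Agent.N874.Jac (UniquelyTwoDivisible ShaTwoTrivialReal)

/-- The completions of `F` at the finite places, and `ℝ` for every real embedding of `F`. -/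
inductive PlF (F : Type) [Field F] [NumberField F] : ∀ (E : Type) [Field E] [Algebra F E], Prop
  | fin (v : HeightOneSpectrum (𝓞 F)) : PlF F (v.adicCompletion F)
  | real (ρ : F →+* ℝ) : @PlF F _ _ ℝ _ ρ.toAlgebra

theorem selTriv {F : Type} [Field F] [NumberField F] {f : (𝓞 F)[X]} (h : SelZero f) :
    Pool.Agent.N352.JB.SelTriv (PlF F) (fF f) := by
  intro a h1 h2 h3
  refine h a h1 h2 (fun v => ?_) fun ρ => ?_
  · exact h3 (v.adicCompletion F) (PlF.fin v)
  · exact @h3 ℝ _ ρ.toAlgebra (PlF.real ρ)

theorem jac {F : Type} [Field F] [NumberField F] {f : (𝓞 F)[X]} (hm : f.Monic)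
    (ho : Odd f.natDegree) (hi : Irreducible (fF f)) (h : SelZero f) :
    UniquelyTwoDivisible (fF f) ∧ ShaTwoTrivialReal (fF f) (𝓞 F) := by
  have hF : (fF f).Monic := hm.map _
  have hd : Odd (fF f).natDegree := by
    rw [hm.natDegree_map]
    exact ho
  have ht := selTriv h
  refine ⟨Pool.Agent.N352.JB.ptsT F _ two_ne_zero hF hi hi.separable hd _ ht,
    fun c m hc hl hr hb => ?_⟩
  refine Pool.Agent.N352.JB.shaT F _ two_ne_zero hF hi hi.separable hd _ ht c m hc
    (fun E _ _ hE => ?_) hb
  cases hE with
  | fin v => exact hl v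
  | real ρ => exact hr ρ

end Pool.Agent.N783.PF
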